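import Mathlib
import Pool.Agent.R493.SC.Shift
/-!
# Common differences of primes in several intervals

The question is whether all the intervals `(n + 4, 2 ^ (n + 4))` contain primes `p, p + 2`. Here, for every
`R`: for all large `x_1, ..., x_R` (which may be of very different sizes) there is an even `h ≤ H(R)`,
such that each of the intervals `(x_r, D x_r]` contains at least `x_r / (log x_r) ^ B` primes `p` such that
`p + h` is prime; in particular (`x_r = n_r + 4`) this holds for any `R` of the intervals of the question. In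
fact, among the differences of the elements of any large set `V` of multiples of a constant `P` the
proportion of such `h` is at least `1 / m R - ε`, where `m 1 = 3`, `m 2 = 10`, `m 3 = 36`, ...

The theorem on classes of linear forms with the constant `18 / 5`, uniform in constant terms as large as the
variable (`Pool.Agent.Y827.RO.lamRD`), is from the starting files.
-/

namespace Pool.Agent.Results.MP_b51559_nt.CommonDifferences

open Finset Filter

/-- the number of the primes `p` in `(x, D x]` such that `p + h` is prime -/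
def count (h D x : ℕ) : ℕ :=
  ((Ioc x (D * x)).filter (fun p : ℕ => p.Prime ∧ (p + h).Prime)).card

/-- `m 0 = 1` and `m (R + 1) = ⌊18 * m R / 5⌋`: the numbers `1, 3, 10, 36, 129, ...` -/
def m : ℕ → ℕ
  | 0 => 1
  | R + 1 => 18 * m R / 5

theorem m_eq (R : ℕ) : m R = Pool.Agent.R493.SI.mR R := by
  induction R with
  | zero => rfl
  | succ R ih =>
    show 18 * m R / 5 = 18 * Pool.Agent.R493.SI.mR R / 5
    rw [ih]

open Classical in
theorem result (R : ℕ) (ε : ℝ) (hε : 0 < ε) : ∃ n₀ B P D N₀ : ℕ, 0 < P ∧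
    ∀ x : Fin R → ℕ, (∀ ρ, N₀ ≤ x ρ) → ∀ V : Finset ℕ, n₀ ≤ V.card →
    (∀ v ∈ V, P ∣ v ∧ ∀ ρ, v ≤ x ρ) →
    (1 / (m R : ℝ) - ε) * (V.card : ℝ) ^ 2 / 2 ≤ (((V ×ˢ V).filter (fun y => y.1 < y.2 ∧
      ∀ ρ, (x ρ : ℝ) / (Real.log (x ρ)) ^ B ≤ (count (y.2 - y.1) D (x ρ) : ℝ))).card : ℝ) := by
  obtain ⟨n₀, B, P, hP, h⟩ := Pool.Agent.R493.SC.shiftPairs R ε hε
  obtain ⟨D, N₀, h1⟩ := h 1
  refine ⟨n₀, B, P, D, N₀, hP, fun x hx V hV hVd => ?_⟩
  rw [m_eq]
  refine (h1 (fun _ => 1) (fun _ => 1) x (fun ρ => ⟨le_rfl, le_rfl, Nat.coprime_one_right 1, hx ρ⟩) V hV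
    (fun v hv => ⟨(hVd v hv).1, fun ρ => ⟨one_dvd _, (hVd v hv).2 ρ⟩⟩)).trans (le_of_eq ?_)
  congr 2
  apply filter_congr
  intro y _
  have e : ∀ ρ, Pool.Agent.R493.SC.cntS 1 1 (y.2 - y.1) D (x ρ) = count (y.2 - y.1) D (x ρ) := by
    intro ρ
    unfold Pool.Agent.R493.SC.cntS count
    congr 1
    apply filter_congr
    intro p _
    simp [Nat.modEq_one]
  simp only [e]

end Pool.Agent.Results.MP_b51559_nt.CommonDifferences
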