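import Mathlib
import Pool.Agent.R960.Fam.Sharp
import Pool.Agent.R960.Fam.Gap5

set_option autoImplicit false

/-!
# The largest gaps between twins in random models of the primes

The integers are decided one after the other; no independence is assumed.  Fix a finite set `Q` of
primes; multiples of the primes of `Q` are never chosen and the other integers `n + 1` are chosen with
conditional probability `(1 + o(1)) ∏_{p ∈ Q} (1 - 1/p)⁻¹ / log n`.  Almost surely the largest gaps between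
consecutive twins near `y` are asymptotic to `(log y)³ / 𝔖`: the intervals `(y, y + (1 + ε) (log y)³ / 𝔖]`
contain twins for all large `y`, infinitely many of the intervals `(y, y + (1 - ε) (log y)³ / 𝔖]` do not.
Moreover the number of twins in `(y, y + h]` is asymptotic to `𝔖 h / (log y)²` as soon as `h` is a large
multiple of `(log y)³`.
-/

open MeasureTheory Filter
open scoped Topology

namespace Pool.Agent.Results.MP_b51559_nt.LargestTwinGaps

/-- the conditional probability that `n + 1` is chosen, given the information up to `n` -/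
noncomputable def density {Ω : Type} {mΩ : MeasurableSpace Ω} (μ : Measure Ω) (ℱ : Filtration ℕ mΩ)
    (A : ℕ → Set Ω) (n : ℕ) : Ω → ℝ := μ[(A (n + 1)).indicator (fun _ => (1 : ℝ)) | ℱ n]

/-- the number of `m` with `y < m ≤ y + h` such that `m` and `m + 2` are in `S` -/
noncomputable def twins (S : Set ℕ) (y h : ℕ) : ℕ := {m : ℕ | (y < m ∧ m ≤ y + h) ∧ m ∈ S ∧ m + 2 ∈ S}.ncard

/-- the Hardy and Littlewood factors of the primes of `Q` for twins -/
noncomputable def twinFactor (Q : Finset ℕ) : ℝ :=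
  ∏ p ∈ Q, (1 - (if p = 2 then 1 else 2) / (p : ℝ)) / (1 - 1 / (p : ℝ)) ^ 2

lemma factor_eq (Q : Finset ℕ) (hQ : ∀ p ∈ Q, p.Prime) : Pool.Agent.R528.RM.singH Q {0, 2} = twinFactor Q := by
  unfold Pool.Agent.R528.RM.singH twinFactor
  refine Finset.prod_congr rfl fun p hp => ?_
  have h1 : Pool.Agent.R528.RM.occ {0, 2} p = if p = 2 then 1 else 2 := by
    unfold Pool.Agent.R528.RM.occ
    rw [Finset.image_insert, Finset.image_singleton, Nat.zero_mod]
    split_ifs with h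
    · subst h
      rfl
    · have h2 : 2 % p ≠ 0 := by
        intro h3
        have h4 := Nat.dvd_of_mod_eq_zero h3
        have h5 := Nat.le_of_dvd (by norm_num) h4
        have h6 := (hQ p hp).two_le
        omega
      rw [Finset.card_insert_of_notMem (by simpa using h2.symm), Finset.card_singleton]
  rw [h1, show ({0, 2} : Finset ℕ).card = 2 from rfl]
  split_ifs <;> norm_num

lemma factor_pos (Q : Finset ℕ) (hQ : ∀ p ∈ Q, p.Prime) : 0 < twinFactor Q := by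
  refine Finset.prod_pos fun p hp => ?_
  have h2 : (2 : ℝ) ≤ p := by exact_mod_cast (hQ p hp).two_le
  have hp0 : (0 : ℝ) < p := by linarith
  have h3 : 0 < 1 - 1 / (p : ℝ) := by
    rw [sub_pos, div_lt_one hp0]
    linarith
  refine div_pos ?_ (by positivity)
  split_ifs with h
  · exact h3
  · have h4 : 3 ≤ p := by
      have h5 := (hQ p hp).two_le
      omega
    have h4' : (3 : ℝ) ≤ p := by exact_mod_cast h4
    rw [sub_pos, div_lt_one hp0]
    linarith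

lemma twins_eq (S : Set ℕ) (y h : ℕ) : twins S y h = Pool.Agent.R960.Fam.cntI S {0, 2} y h := by
  unfold twins Pool.Agent.R960.Fam.cntI
  congr 1
  ext m
  simp

lemma pow_big {y : ℕ} (hy : 4 ≤ y) : 2 * y + 2 < 2 ^ y := by
  induction y, hy using Nat.le_induction with
  | base => norm_num
  | succ y hy ih =>
    rw [pow_succ]
    omega

end Pool.Agent.Results.MP_b51559_nt.LargestTwinGaps

open Pool.Agent.Results.MP_b51559_nt.LargestTwinGaps

theorem Pool.Agent.Results.MP_b51559_nt.LargestTwinGaps.result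
    {Ω : Type} [mΩ : MeasurableSpace Ω] (μ : Measure Ω) [IsProbabilityMeasure μ]
    (ℱ : Filtration ℕ mΩ) (A : ℕ → Set Ω) (hA : ∀ n, MeasurableSet[ℱ n] (A n))
    (Q : Finset ℕ) (hQ : ∀ p ∈ Q, p.Prime) (hcop : ∀ n, (∃ p ∈ Q, p ∣ n) → A n = ∅)
    (hd : ∀ᵐ ω ∂μ, Tendsto (fun n : ℕ => density μ ℱ A n ω * Real.log n)
        (atTop ⊓ 𝓟 {n : ℕ | ∀ p ∈ Q, ¬ p ∣ n + 1}) (𝓝 (∏ p ∈ Q, (1 - 1 / (p : ℝ))⁻¹))) :
    0 < twinFactor Q ∧
    ∀ᵐ ω ∂μ,
      (∀ ε : ℝ, 0 < ε → ∀ᶠ y : ℕ in atTop, ∃ m : ℕ, y < m ∧ (m : ℝ) ≤ y + (1 + ε) * Real.log y ^ 3 / twinFactor Q ∧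
        m + 2 < 2 ^ y ∧ ω ∈ A m ∧ ω ∈ A (m + 2)) ∧
      (∀ ε : ℝ, 0 < ε → ∃ᶠ y : ℕ in atTop, ∀ m : ℕ, y < m → (m : ℝ) ≤ y + (1 - ε) * Real.log y ^ 3 / twinFactor Q →
        ¬ (ω ∈ A m ∧ ω ∈ A (m + 2))) ∧
      ∀ ε : ℝ, 0 < ε → ∃ K : ℝ, 0 < K ∧ ∀ᶠ y : ℕ in atTop, ∀ h : ℕ, h ≤ y → K * Real.log y ^ 3 ≤ h →
        |(twins {a | ω ∈ A a} y h : ℝ) * Real.log y ^ 2 / h - twinFactor Q| ≤ ε := by
  classical
  have hf := factor_pos Q hQ
  have hfe := factor_eq Q hQ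
  have hf' : 0 < Pool.Agent.R528.RM.singH Q {0, 2} := by rw [hfe]; exact hf
  refine ⟨hf, ?_⟩
  have hek : ∀ k : ℕ, (0 : ℝ) < 1 / ((k : ℝ) + 2) ∧ 1 / ((k : ℝ) + 2) ≤ 1 / 2 := by
    intro k
    have h0 : (0 : ℝ) ≤ k := Nat.cast_nonneg k
    exact ⟨by positivity, one_div_le_one_div_of_le (by norm_num) (by linarith)⟩
  have hex := ae_all_iff.2 fun k : ℕ => Pool.Agent.R960.Fam.twins_exist (μ := μ) hA Q hQ hcop hd hf' (hek k).1
    ((hek k).2.trans (by norm_num))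
  have hab := ae_all_iff.2 fun k : ℕ => Pool.Agent.R960.Fam.twins_absent (μ := μ) hA Q hQ hcop hd hf' (hek k).1 (hek k).2
  have tl := Real.tendsto_log_atTop.comp (tendsto_natCast_atTop_atTop (R := ℝ))
  have hchoose : ∀ e : ℝ, 0 < e → ∃ k : ℕ, 1 / ((k : ℝ) + 2) ≤ e := by
    intro e he
    obtain ⟨k, hk⟩ := exists_nat_gt (1 / e)
    refine ⟨k, ?_⟩
    have h0 : (0 : ℝ) < (k : ℝ) + 2 := by positivity
    rw [div_le_iff₀ h0]
    rw [div_lt_iff₀ he] at hk
    nlinarith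
  filter_upwards [Pool.Agent.R960.Fam.twin_sharp (μ := μ) hA Q hQ hcop hd, hex, hab] with ω hω hU hL
  rw [hfe] at hU hL
  set σ := twinFactor Q with hσdef
  refine ⟨?_, ?_, ?_⟩
  · intro ε hε
    set ε' : ℝ := min ε 1 with hε'
    have hε'0 : 0 < ε' := lt_min hε one_pos
    have hε'1 : ε' ≤ 1 := min_le_right _ _
    have hε'ε : ε' ≤ ε := min_le_left _ _
    obtain ⟨k, hk⟩ := hchoose (ε' / 4) (by positivity)
    have h1 := (tendsto_add_atTop_nat 2).eventually (hU k)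
    filter_upwards [h1, tl.eventually_ge_atTop (16 * Real.log 2 / ε'), tl.eventually_ge_atTop 1, eventually_ge_atTop 4,
      Pool.Agent.R960.Fam.log_pow_le 3 (show 0 < σ / (1 + ε) by positivity)] with y g1 g2 g3 g4 g5
    have g2' : 16 * Real.log 2 / ε' ≤ Real.log y := g2
    have g3' : 1 ≤ Real.log y := g3
    obtain ⟨m, m1, m2, m3, m4⟩ := g1
    have hyr : (4 : ℝ) ≤ y := by exact_mod_cast g4
    set L := Real.log (y : ℝ) with hLdef
    have hlog : Real.log ((y + 2 : ℕ) : ℝ) ≤ (1 + ε' / 16) * L := by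
      have q1 : Real.log ((y + 2 : ℕ) : ℝ) ≤ Real.log (2 * (y : ℝ)) := by
        refine Real.log_le_log (by positivity) ?_
        push_cast
        linarith
      rw [Real.log_mul (by norm_num) (by linarith)] at q1
      rw [div_le_iff₀ hε'0] at g2'
      rw [← hLdef] at q1
      linarith
    have hl0 : 0 ≤ Real.log ((y + 2 : ℕ) : ℝ) := Real.log_natCast_nonneg _
    have hcube : (1 + 1 / ((k : ℝ) + 2)) * Real.log ((y + 2 : ℕ) : ℝ) ^ 3 ≤ (1 + ε) * L ^ 3 := by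
      have q1 := pow_le_pow_left₀ hl0 hlog 3
      have q2 : ((1 + ε' / 16) * L) ^ 3 = (1 + ε' / 16) ^ 3 * L ^ 3 := mul_pow _ _ _
      have q3 : (1 + ε' / 16) ^ 3 ≤ 1 + ε' / 4 := by nlinarith [pow_pos hε'0 2, pow_pos hε'0 3, mul_nonneg hε'0.le (by linarith : 0 ≤ 1 - ε'), mul_nonneg (pow_pos hε'0 2).le (by linarith : 0 ≤ 1 - ε')]
      have hL3 : 0 ≤ L ^ 3 := by positivity
      have q4 : Real.log ((y + 2 : ℕ) : ℝ) ^ 3 ≤ (1 + ε' / 4) * L ^ 3 := by
        rw [q2] at q1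
        exact q1.trans (mul_le_mul_of_nonneg_right q3 hL3)
      have q5 : (1 + 1 / ((k : ℝ) + 2)) * Real.log ((y + 2 : ℕ) : ℝ) ^ 3 ≤ (1 + ε' / 4) * ((1 + ε' / 4) * L ^ 3) :=
        mul_le_mul (by linarith) q4 (by positivity) (by positivity)
      refine q5.trans ?_
      have q6 : (1 + ε' / 4) * (1 + ε' / 4) ≤ 1 + ε := by nlinarith
      nlinarith
    have hfl : ((⌊(1 + 1 / ((k : ℝ) + 2)) * Real.log ((y + 2 : ℕ) : ℝ) ^ 3 / σ⌋₊ : ℕ) : ℝ) ≤ (1 + ε) * L ^ 3 / σ := by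
      refine (Nat.floor_le ?_).trans (div_le_div_of_nonneg_right hcube hf.le)
      have := (hek k).1
      positivity
    have hm : (m : ℝ) ≤ y + (1 + ε) * L ^ 3 / σ := by
      have q1 : ((m + 2 : ℕ) : ℝ) ≤ ((y + 2 + ⌊(1 + 1 / ((k : ℝ) + 2)) * Real.log ((y + 2 : ℕ) : ℝ) ^ 3 / σ⌋₊ : ℕ) : ℝ) := by
        exact_mod_cast m2
      push_cast at q1 hfl
      linarith
    refine ⟨m, by omega, hm, ?_, m3, m4⟩
    have q1 : (1 + ε) * L ^ 3 / σ ≤ y := by
      rw [div_le_iff₀ hf]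
      have q2 := mul_le_mul_of_nonneg_left g5 (show 0 ≤ 1 + ε by linarith)
      have q3 : (1 + ε) * (σ / (1 + ε) * (y : ℝ)) = y * σ := by field_simp
      linarith
    have q4 : (m : ℝ) ≤ ((2 * y : ℕ) : ℝ) := by
      push_cast
      linarith
    have q5 : m ≤ 2 * y := by exact_mod_cast q4
    have q6 := pow_big g4
    omega
  · intro ε hε
    obtain ⟨k, hk⟩ := hchoose (ε / 2) (by positivity)
    have tX : Tendsto (fun y : ℕ => ε / 2 * (Real.log y ^ 3 / σ)) atTop atTop := by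
      refine Tendsto.const_mul_atTop (by positivity) (Tendsto.atTop_div_const hf ?_)
      exact (tendsto_pow_atTop (by norm_num)).comp tl
    refine ((hL k).and_eventually (tX.eventually_ge_atTop 3)).mono ?_
    rintro y ⟨h1, h2⟩ m hm1 hm2 hm3
    set X := Real.log (y : ℝ) ^ 3 / σ with hX
    have hX0 : 0 ≤ X := div_nonneg (pow_nonneg (Real.log_natCast_nonneg _) 3) hf.le
    have q1 : (1 - ε) * Real.log (y : ℝ) ^ 3 / σ = (1 - ε) * X := by rw [hX]; ring
    have q2 : (1 - 1 / ((k : ℝ) + 2)) * Real.log (y : ℝ) ^ 3 / σ = (1 - 1 / ((k : ℝ) + 2)) * X := by rw [hX]; ring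
    rw [q1] at hm2
    have q3 : (1 - 1 / ((k : ℝ) + 2)) * X < ⌊(1 - 1 / ((k : ℝ) + 2)) * Real.log (y : ℝ) ^ 3 / σ⌋₊ + 1 := by
      rw [← q2]
      exact Nat.lt_floor_add_one _
    have q4 : (1 - ε) * X + 3 ≤ (1 - 1 / ((k : ℝ) + 2)) * X := by
      have : 1 / ((k : ℝ) + 2) * X ≤ ε / 2 * X := mul_le_mul_of_nonneg_right hk hX0
      nlinarith
    refine h1 m (by omega) ?_ hm3
    have q5 : ((m + 2 : ℕ) : ℝ) < ((y + ⌊(1 - 1 / ((k : ℝ) + 2)) * Real.log (y : ℝ) ^ 3 / σ⌋₊ : ℕ) : ℝ) := by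
      push_cast
      linarith
    have q6 : m + 2 < y + ⌊(1 - 1 / ((k : ℝ) + 2)) * Real.log (y : ℝ) ^ 3 / σ⌋₊ := by exact_mod_cast q5
    exact q6.le
  · intro ε hε
    obtain ⟨K, hK, hk⟩ := hω ε hε
    refine ⟨K, hK, ?_⟩
    filter_upwards [hk] with y hy h h1 h2
    have := hy h h1 h2
    rw [hfe, ← twins_eq] at this
    exact this
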