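import Pool.Agent.R490.Tw

set_option autoImplicit false

/-!
# Primes with an almost prime twin in all windows: exact counts and the law of the next almost prime pairs
-/

namespace Pool.Agent.Results.MP_b51559_nt.LawAfterPrimes

open Finset Filter

/-- Neither `n` nor `n + 2` has a prime factor `≤ N ^ (1 / r)`. -/
def RoughPair (N r n : ℕ) : Prop :=
  ∀ p : ℕ, p.Prime → (p : ℝ) ≤ (N : ℝ) ^ (1 / (r : ℝ)) → ∀ h ∈ ({0, 2} : Finset ℕ), ¬ p ∣ n + h

/-- The product of `1 - 2 / p` over the primes `3 < p ≤ N ^ (1 / r)`. -/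
noncomputable def V (N r : ℕ) : ℝ :=
  ∏ p ∈ (Ioc 3 ⌊(N : ℝ) ^ (1 / (r : ℝ))⌋₊).filter Nat.Prime, (1 - ((2 : ℕ) : ℝ) / p)

/-- `V` divided by the product of `1 - 1 / p` over the primes `p ≤ N ^ (1 / r)`. -/
noncomputable def W (N r : ℕ) : ℝ :=
  V N r / ∏ p ∈ (Ioc 0 ⌊(N : ℝ) ^ (1 / (r : ℝ))⌋₊).filter Nat.Prime, (1 - 1 / (p : ℝ))

open Classical in
/-- The rough pairs with `n` in `(A, A + L]` whose member `n + b` is PRIME. -/
noncomputable def P (N r b A L : ℕ) : Finset ℕ :=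
  (Ioc A (A + L)).filter (fun n => (n + b).Prime ∧ RoughPair N r n)

open Classical in
/-- The number of the rough pairs starting in `(n, n + 6 T]` with a number congruent to `n` modulo 6. -/
noncomputable def Next (N r T n : ℕ) : ℕ :=
  ((Ioc n (n + 6 * T)).filter (fun l => l % 6 = n % 6 ∧ RoughPair N r l)).card

open Classical in
/-- **The law after primes.** Let `0 < θ`, `0 < δ ≤ 1`, `x0` and `0 < ε ≤ 1`. There is `r0` such that for every
`r ≥ r0` and all large `N`: for `b = 0` and `b = 2` and all windows `(A, A + L]` with `A + L ≤ X`, `δ X ≤ L`,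
`X ≥ N ^ θ`, for instance all windows `(x, 2 x]` and `(x, x ^ c]` in which the twin prime is asked for: the `n`
in the window for which `n + b` is PRIME and neither `n` nor `n + 2` has a prime factor `≤ N ^ (1 / r)` number
`(L / 6) W / log X`, up to the factor `1 + ε`, and for exactly the expected proportions of them,
`e ^ (- T V) (T V) ^ j / j!`, there are `j` rough pairs `l ≡ n` modulo `6` in `(n, n + 6 T]`, as for a Poisson
process, `T V ≤ x0`. -/
theorem result (θ δ : ℝ) (hθ : 0 < θ) (hδ : 0 < δ) (hδ1 : δ ≤ 1) (x0 ε : ℝ) (hε : 0 < ε) (hε1 : ε ≤ 1) :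
    ∃ r0 : ℕ, 2 ≤ r0 ∧ ∀ r : ℕ, r0 ≤ r → ∀ᶠ N : ℕ in atTop, 0 < W N r ∧
      ∀ b ∈ ({0, 2} : Finset ℕ), ∀ X : ℕ, (N : ℝ) ^ θ ≤ X →
      ∀ A L : ℕ, δ * X ≤ L → A + L ≤ X →
      |((P N r b A L).card : ℝ) * Real.log X - ((1 : ℕ) : ℝ) * (L / ((6 : ℕ) : ℝ) * W N r)| ≤
        ε * (((1 : ℕ) : ℝ) * (L / ((6 : ℕ) : ℝ) * W N r)) ∧
      ∀ T : ℕ, T * V N r ≤ x0 → ∀ J : Finset ℕ,
      |(((P N r b A L).filter (fun n => Next N r T n ∈ J)).card : ℝ) -
        (P N r b A L).card * ∑ j ∈ J, Real.exp (-(T * V N r)) * (T * V N r) ^ j / j.factorial| ≤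
        ε * (P N r b A L).card :=
  Pool.Agent.R490.Pt.law 6 3 (fun p hp => Pool.Agent.R490.Tw.pr6 p hp) Pool.Agent.R490.Tw.tw _
      Pool.Agent.R490.Tw.mem_tw {5} ⟨5, by decide⟩ Pool.Agent.R490.Tw.pat_tw θ δ hθ hδ hδ1 x0 ε hε hε1

end Pool.Agent.Results.MP_b51559_nt.LawAfterPrimes
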